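import Pool.Agent.H81.AB.Stm
import Pool.Graph.R_seed8.Y410.PAR.EXT
import Pool.Graph.R_seed8.Results.MP_281388_al.OddOrder

/-! Crew AB, part ABL. -/

set_option autoImplicit false

namespace H18.AB

open Pool.Agent.Y382.PAR H81.AB

universe u

lemma CM_congr {G H : Type u} [Group G] [Group H] (e : G ≃* H) (h : CM G) : CM H := by
  obtain ⟨f, F, hF⟩ := h
  refine ⟨e.toEquiv.permCongr f, e.toEquiv.permCongr F, fun x => ?_⟩
  show e (F (e.symm x)) = x * e (f (e.symm x))
  rw [hF, map_mul]
  simp

lemma CM_of_odd (G : Type u) [Group G] [Finite G] (h : Odd (Nat.card G)) : CM G := by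
  have hc : (Nat.card G).Coprime 2 := Nat.coprime_two_right.mpr h
  refine ⟨Equiv.refl G, powCoprime hc, fun x => ?_⟩
  show x ^ 2 = x * x
  exact pow_two x

theorem t_ABL (h1 : S_BIG.{u}) (h2 : S_RNK.{u}) (h3 : S_ORD.{u}) (h4 : S_PAI.{u}) : S_ABL.{u} := by
  intro G _ _ hG hS
  obtain ⟨P⟩ : Nonempty (Sylow 2 G) := inferInstance
  have hpos : 0 < Nat.card G := Nat.card_pos
  have : Fact (Nat.Prime 2) := ⟨Nat.prime_two⟩
  have hmulc : Nat.card (P : Subgroup G) * (P : Subgroup G).index = Nat.card G :=
    Subgroup.card_mul_index _
  have hindex : Odd ((P : Subgroup G).index) := by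
    rw [← Nat.not_even_iff_odd, even_iff_two_dvd]
    exact P.not_dvd_index
  rcases hS P with hbot | hnc
  · have hodd : Odd (Nat.card G) := by
      rw [← hmulc, hbot]
      rw [hbot] at hindex
      simpa using hindex
    exact (Pool.Agent.Results.MP_281388_al.OddOrder.main G hodd).mpr (by omega)
  · have hP2 : IsPGroup 2 (P : Subgroup G) := P.isPGroup'
    have hcopr : Nat.Coprime (Nat.card (P : Subgroup G)) ((P : Subgroup G).index) := by
      obtain ⟨n, hn⟩ := IsPGroup.iff_card.mp hP2
      rw [hn]
      exact Nat.Coprime.pow_left n (Nat.coprime_two_left.mpr hindex)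
    obtain ⟨O, hO⟩ := Subgroup.exists_right_complement'_of_coprime hcopr
    have hcard : Nat.card (P : Subgroup G) * Nat.card O = Nat.card G := hO.card_mul_card
    have hOindex : Nat.card O = (P : Subgroup G).index := by
      have hp : 0 < Nat.card (P : Subgroup G) := Nat.card_pos
      have : Nat.card (P : Subgroup G) * Nat.card O =
          Nat.card (P : Subgroup G) * (P : Subgroup G).index := by rw [hcard, hmulc]
      exact Nat.eq_of_mul_eq_mul_left hp this
    have hOodd : Odd (Nat.card O) := by rw [hOindex]; exact hindex
    by_cases hO5 : 5 < Nat.card O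
    · have hOall : AllPar O :=
        (Pool.Agent.Results.MP_281388_al.OddOrder.main O hOodd).mpr (by omega)
      have hcmP : CM (P : Subgroup G) := h4 (P : Subgroup G) hP2 hnc
      have e : G ⧸ O ≃* (P : Subgroup G) := hO.QuotientMulEquiv
      exact Pool.Agent.Y410.PAR.t_EXT G O (CM_congr e.symm hcmP) hOall
    · have hPcard : 32 ^ 3 < Nat.card (P : Subgroup G) := by
        by_contra hcon
        have : Nat.card G ≤ 32 ^ 3 * 5 := by
          rw [← hcard]
          exact Nat.mul_le_mul (not_lt.mp hcon) (not_lt.mp hO5)
        omega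
      have hPall : AllPar (P : Subgroup G) := by
        by_cases ha : ∃ a : (P : Subgroup G), 16 ≤ orderOf a
        · exact h1 (P : Subgroup G) hP2 hnc ha
        · have ha' : ∀ a : (P : Subgroup G), orderOf a < 16 := by
            intro a
            by_contra h
            exact ha ⟨a, not_lt.mp h⟩
          by_cases h64 : 64 ≤ Nat.card {x : (P : Subgroup G) // x ^ 2 = 1}
          · exact h2 (P : Subgroup G) hP2 h64
          · exfalso
            have hker : Nat.card {x : (P : Subgroup G) // x ^ 2 = 1} =
                Nat.card ((powMonoidHom 2 : (P : Subgroup G) →* (P : Subgroup G)).ker) := by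
              refine Nat.card_congr (Equiv.subtypeEquivRight fun x => ?_)
              rw [MonoidHom.mem_ker, powMonoidHom_apply]
            have hkerP : IsPGroup 2
                ((powMonoidHom 2 : (P : Subgroup G) →* (P : Subgroup G)).ker) :=
              hP2.to_subgroup _
            obtain ⟨n, hn⟩ := IsPGroup.iff_card.mp hkerP
            rw [hker, hn] at h64
            have hn6 : n < 6 := by
              by_contra hcon
              apply h64
              calc 64 = 2 ^ 6 := by norm_num
                _ ≤ 2 ^ n := Nat.pow_le_pow_right (by norm_num) (not_lt.mp hcon)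
            have h32 : Nat.card {x : (P : Subgroup G) // x ^ 2 = 1} ≤ 32 := by
              rw [hker, hn]
              calc 2 ^ n ≤ 2 ^ 5 := Nat.pow_le_pow_right (by norm_num) (by omega)
                _ = 32 := by norm_num
            have := h3 (P : Subgroup G) hP2 ha' h32
            omega
      have hcmQ : CM (G ⧸ (P : Subgroup G)) := by
        apply CM_of_odd
        rw [← Subgroup.index_eq_card]
        exact hindex
      exact Pool.Agent.Y410.PAR.t_EXT G (P : Subgroup G) hcmQ hPall

end H18.AB
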